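import Mathlib

/-!
# The number `B_2 = 3 * 5 * 7 * 11 * 17 * 19` is not primitive pseudoperfect

Its proper divisor `19635 = 3 * 5 * 7 * 11 * 17` is already pseudoperfect.
-/

set_option autoImplicit false

namespace Pool.Agent.Results.MP_64ebd5_nt.NotPrimitive

/-- The primes in increasing order, `pr 1 = 2`, `pr 2 = 3`, `pr 3 = 5`, ... -/
noncomputable def pr (k : ℕ) : ℕ := Nat.nth Nat.Prime (k - 1)

/-- `f k` is the least index `j ≥ k` with `σ (p_k ... p_j) ≥ 2 p_k ... p_j`. -/
noncomputable def f (k : ℕ) : ℕ :=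
  sInf {j : ℕ | k ≤ j ∧
    2 * ∏ l ∈ Finset.Icc k j, pr l ≤ ∑ d ∈ (∏ l ∈ Finset.Icc k j, pr l).divisors, d}

/-- `A k = p_k ... p_{f k}`. -/
noncomputable def A (k : ℕ) : ℕ := ∏ l ∈ Finset.Icc k (f k), pr l

/-- `B k = (A k / p_{f k}) p_{f k + 1} p_{f k + 2}`. -/
noncomputable def B (k : ℕ) : ℕ := A k / pr (f k) * pr (f k + 1) * pr (f k + 2)

/-- `n` is primitive pseudoperfect: it is pseudoperfect (a positive integer that is the sum of some
set of distinct divisors `d < n` of `n`) and no divisor `d < n` of `n` is pseudoperfect. -/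
def PrimitivePseudoperfect (n : ℕ) : Prop :=
  n.Pseudoperfect ∧ ∀ d ∈ n.properDivisors, ¬ d.Pseudoperfect

theorem pr2 : pr 2 = 3 := by
  have h : Nat.count Nat.Prime 3 = 1 := by decide
  have := Nat.nth_count (p := Nat.Prime) (n := 3) (by norm_num)
  rwa [h] at this

theorem pr3 : pr 3 = 5 := by
  have h : Nat.count Nat.Prime 5 = 2 := by decide
  have := Nat.nth_count (p := Nat.Prime) (n := 5) (by norm_num)
  rwa [h] at this

theorem pr4 : pr 4 = 7 := by
  have h : Nat.count Nat.Prime 7 = 3 := by decide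
  have := Nat.nth_count (p := Nat.Prime) (n := 7) (by norm_num)
  rwa [h] at this

theorem pr5 : pr 5 = 11 := by
  have h : Nat.count Nat.Prime 11 = 4 := by decide
  have := Nat.nth_count (p := Nat.Prime) (n := 11) (by norm_num)
  rwa [h] at this

theorem pr6 : pr 6 = 13 := by
  have h : Nat.count Nat.Prime 13 = 5 := by decide
  have := Nat.nth_count (p := Nat.Prime) (n := 13) (by norm_num)
  rwa [h] at this

theorem pr7 : pr 7 = 17 := by
  have h : Nat.count Nat.Prime 17 = 6 := by decide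
  have := Nat.nth_count (p := Nat.Prime) (n := 17) (by norm_num)
  rwa [h] at this

theorem pr8 : pr 8 = 19 := by
  have h : Nat.count Nat.Prime 19 = 7 := by decide
  have := Nat.nth_count (p := Nat.Prime) (n := 19) (by norm_num)
  rwa [h] at this

theorem prod22 : ∏ l ∈ Finset.Icc 2 2, pr l = 3 := by
  simp [pr2]

theorem prod23 : ∏ l ∈ Finset.Icc 2 3, pr l = 15 := by
  rw [Finset.prod_Icc_succ_top (by norm_num), prod22, pr3]
  norm_num

theorem prod24 : ∏ l ∈ Finset.Icc 2 4, pr l = 105 := by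
  rw [Finset.prod_Icc_succ_top (by norm_num), prod23, pr4]
  norm_num

theorem prod25 : ∏ l ∈ Finset.Icc 2 5, pr l = 1155 := by
  rw [Finset.prod_Icc_succ_top (by norm_num), prod24, pr5]
  norm_num

theorem prod26 : ∏ l ∈ Finset.Icc 2 6, pr l = 15015 := by
  rw [Finset.prod_Icc_succ_top (by norm_num), prod25, pr6]
  norm_num

theorem f_two : f 2 = 6 := by
  have h6 : 6 ∈ {j : ℕ | 2 ≤ j ∧
      2 * ∏ l ∈ Finset.Icc 2 j, pr l ≤ ∑ d ∈ (∏ l ∈ Finset.Icc 2 j, pr l).divisors, d} := by
    refine ⟨by norm_num, ?_⟩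
    rw [prod26]
    decide +kernel
  refine le_antisymm (Nat.sInf_le h6) (le_csInf ⟨6, h6⟩ ?_)
  rintro j ⟨hj, hs⟩
  by_contra hlt
  have hj5 : j ≤ 5 := by omega
  interval_cases j
  · rw [prod22] at hs
    revert hs
    decide +kernel
  · rw [prod23] at hs
    revert hs
    decide +kernel
  · rw [prod24] at hs
    revert hs
    decide +kernel
  · rw [prod25] at hs
    revert hs
    decide +kernel

theorem A_two : A 2 = 15015 := by
  unfold A
  rw [f_two, prod26]

theorem B_two : B 2 = 373065 := by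
  unfold B
  rw [A_two, f_two, pr6, pr7, pr8]

theorem pseudo : Nat.Pseudoperfect 19635 := by
  refine ⟨by norm_num, (Nat.properDivisors 19635).filter
    (fun d => d ≠ 1785 ∧ d ≠ 385 ∧ d ≠ 21 ∧ d ≠ 11), Finset.filter_subset _ _, ?_⟩
  decide +kernel

/-- The number `B 2 = 373065` is not primitive pseudoperfect (so it is not true that for every
`k ≥ 2` both `A k` and `B k` are primitive pseudoperfect). -/
theorem result : B 2 = 373065 ∧ ¬ PrimitivePseudoperfect (B 2) := by
  refine ⟨B_two, fun h => ?_⟩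
  refine h.2 19635 ?_ pseudo
  rw [B_two, Nat.mem_properDivisors]
  decide

end Pool.Agent.Results.MP_64ebd5_nt.NotPrimitive
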